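import Pool.Agent.H17.Cos.ZDBase

namespace Pool.Agent.H55.Cos

open Set Filter Topology

/-- partition into relatively clopen pieces -/
theorem zdc_part {X : Type} [TopologicalSpace X]
    (hS : ∀ P Q : Set X, IsClosed P → IsClosed Q → Disjoint P Q →
      ∃ C : Set X, IsClopen C ∧ P ⊆ C ∧ Disjoint Q C) :
    ∀ (q : ℕ) (U : Fin q → Set X) (E : Set X), IsClopen E → (∀ i, IsOpen (U i)) →
      E ⊆ ⋃ i, U i →
      ∃ C : Fin q → Set X, (∀ i, IsClopen (C i)) ∧ (∀ i, C i ⊆ U i) ∧ (∀ i, C i ⊆ E) ∧
        E ⊆ ⋃ i, C i ∧ ∀ i j, i ≠ j → Disjoint (C i) (C j) := by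
  intro q
  induction q with
  | zero =>
    intro U E hE hU hcov
    refine ⟨U, fun i => i.elim0, fun i => i.elim0, fun i => i.elim0, ?_, fun i => i.elim0⟩
    exact hcov
  | succ q ih =>
    intro U E hE hU hcov
    -- points of `E` outside the later sets
    obtain ⟨D, hD, h1, h2⟩ := hS (E \ ⋃ i : Fin q, U i.succ) (U 0)ᶜ
      (hE.1.sdiff (isOpen_iUnion (fun i => hU _))) (hU 0).isClosed_compl (by
        rw [Set.disjoint_left]
        rintro x ⟨hxE, hx⟩ hx0
        have := hcov hxE
        rw [mem_iUnion] at this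
        obtain ⟨i, hi⟩ := this
        rcases Fin.eq_zero_or_eq_succ i with rfl | ⟨j, rfl⟩
        · exact hx0 hi
        · exact hx (mem_iUnion.2 ⟨j, hi⟩))
    obtain ⟨C, c1, c2, c3, c4, c5⟩ := ih (fun i => U i.succ) (E \ D) (hE.diff hD)
      (fun i => hU _) (by
        rintro x ⟨hxE, hxD⟩
        by_contra hcon
        exact hxD (h1 ⟨hxE, hcon⟩))
    refine ⟨Fin.cons (D ∩ E) C, ?_, ?_, ?_, ?_, ?_⟩
    · intro i
      refine Fin.cases ?_ (fun j => ?_) i
      · exact hD.inter hE
      · exact c1 j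
    · intro i
      refine Fin.cases ?_ (fun j => ?_) i
      · rintro x ⟨hx, _⟩
        by_contra hcon
        exact Set.disjoint_left.1 h2 hcon hx
      · exact c2 j
    · intro i
      refine Fin.cases ?_ (fun j => ?_) i
      · exact inter_subset_right
      · exact (c3 j).trans diff_subset
    · intro x hx
      rw [mem_iUnion]
      by_cases hxD : x ∈ D
      · exact ⟨0, hxD, hx⟩
      · have := c4 ⟨hx, hxD⟩
        rw [mem_iUnion] at this
        obtain ⟨j, hj⟩ := this
        exact ⟨j.succ, hj⟩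
    · have h0 : ∀ j, Disjoint (D ∩ E) (C j) := by
        intro j
        rw [Set.disjoint_left]
        rintro x ⟨hxD, _⟩ hx
        exact (c3 j hx).2 hxD
      intro i j
      refine Fin.cases ?_ (fun i' => ?_) i
      · refine Fin.cases ?_ (fun j' => ?_) j
        · intro h
          exact absurd rfl h
        · intro _
          exact h0 j'
      · refine Fin.cases ?_ (fun j' => ?_) j
        · intro _
          exact (h0 i').symm
        · intro h
          exact c5 i' j' (fun h' => h (by rw [h']))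

theorem cos_zdc : ZDCStmt := by
  intro M _ _ s q U hs hU hcov
  letI : MetricSpace M := TopologicalSpace.metrizableSpaceMetric M
  obtain ⟨C, c1, c2, -, c4, c5⟩ := zdc_part ((zdx_szd_iff s).1 hs) q
    (fun i => Subtype.val ⁻¹' U i) univ isClopen_univ
    (fun i => (hU i).preimage continuous_subtype_val) (by
      intro x _
      have := hcov x.2
      rw [mem_iUnion] at this ⊢
      exact this)
  -- the traces in `M`
  have hsplit : ∀ i, ∀ x ∈ s, x ∉ Subtype.val '' (C i) → x ∈ Subtype.val '' (C i)ᶜ := by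
    intro i x hx hxi
    exact ⟨⟨x, hx⟩, fun h => hxi ⟨_, h, rfl⟩, rfl⟩
  have hpos : ∀ i (x : s), x ∈ C i → 0 < Metric.infEDist x.1 (Subtype.val '' (C i)ᶜ) := by
    intro i x hx
    rw [pos_iff_ne_zero]
    intro h0
    have hcl : x.1 ∈ closure (Subtype.val '' (C i)ᶜ) := Metric.mem_closure_iff_infEDist_zero.2 h0
    obtain ⟨A, hA, hAC⟩ := isOpen_induced_iff.1 (c1 i).2
    have hxA : x.1 ∈ A := by
      have : x ∈ Subtype.val ⁻¹' A := by rw [hAC]; exact hx
      exact this
    obtain ⟨y, hyA, z, hz, rfl⟩ := mem_closure_iff.1 hcl A hA hxA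
    apply hz
    rw [← hAC]
    exact hyA
  refine ⟨fun i => U i ∩ {x | Metric.infEDist x (Subtype.val '' (C i)) <
    Metric.infEDist x (Subtype.val '' (C i)ᶜ)}, ?_, ?_, ?_, ?_⟩
  · intro i
    exact (hU i).inter (isOpen_lt Metric.continuous_infEDist Metric.continuous_infEDist)
  · intro i
    exact inter_subset_left
  · intro x hx
    have := c4 (mem_univ (⟨x, hx⟩ : s))
    rw [mem_iUnion] at this
    obtain ⟨i, hi⟩ := this
    rw [mem_iUnion]
    refine ⟨i, c2 i hi, ?_⟩
    rw [mem_setOf_eq, Metric.infEDist_zero_of_mem (mem_image_of_mem Subtype.val hi)]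
    exact hpos i ⟨x, hx⟩ hi
  · intro i j hij
    rw [Set.disjoint_left]
    rintro x ⟨_, hx⟩ ⟨_, hx'⟩
    rw [mem_setOf_eq] at hx hx'
    have h1 : Metric.infEDist x (Subtype.val '' (C i)ᶜ) ≤
        Metric.infEDist x (Subtype.val '' (C j)) := by
      apply Metric.infEDist_anti
      apply image_mono
      intro y hy hy'
      exact Set.disjoint_left.1 (c5 i j hij) hy' hy
    have h2 : Metric.infEDist x (Subtype.val '' (C j)ᶜ) ≤
        Metric.infEDist x (Subtype.val '' (C i)) := by
      apply Metric.infEDist_anti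
      apply image_mono
      intro y hy hy'
      exact Set.disjoint_left.1 (c5 i j hij) hy hy'
    exact absurd (lt_of_lt_of_le (lt_of_lt_of_le (lt_of_lt_of_le hx h1) hx'.le) h2) (lt_irrefl _)

end Pool.Agent.H55.Cos
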