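import Pool.Agent.H17.Cos.ZDBase

namespace Pool.Agent.H55.Cos

open Set Filter Topology

theorem cos_zdd (ha : ZDAStmt) (hb : ZDBStmt) (hc : ZDCStmt) : ZDDStmt := by
  classical
  intro M _ _ _ K D hK hKu hD hDK hDz hGz
  -- the two strongly zero-dimensional parts
  have h2 : SZD (⋃ n, ⋃ j, D n j) := by
    apply hb M _ (fun m : ℕ => D (Nat.unpair m).1 (Nat.unpair m).2) (fun m => hD _ _)
    · intro x hx
      simp only [mem_iUnion] at hx ⊢
      obtain ⟨n, j, hj⟩ := hx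
      exact ⟨Nat.pair n j, by simpa using hj⟩
    · intro m
      apply ha
      apply zdx_zd_mono (hDz (Nat.unpair m).1 (Nat.unpair m).2)
      exact inter_subset_right
  have h1 : SZD (⋃ n, ⋃ j, D n j)ᶜ := by
    apply hb M _ K hK
    · rw [hKu]
      exact subset_univ _
    · intro n
      apply ha
      apply zdx_zd_mono (hGz n)
      rintro x ⟨hx, hxK⟩
      refine ⟨hxK, fun h => hx ?_⟩
      rw [mem_iUnion] at h ⊢
      obtain ⟨j, hj⟩ := h
      exact ⟨n, mem_iUnion.2 ⟨j, hj⟩⟩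
  intro U hUf hUo hUc
  -- enumerate the cover
  obtain ⟨q, e, he⟩ : ∃ (q : ℕ) (e : Fin q → Set M), range e = U := by
    refine ⟨hUf.toFinset.card, fun i => (hUf.toFinset.equivFin.symm i).1, ?_⟩
    ext A
    constructor
    · rintro ⟨i, rfl⟩
      exact hUf.mem_toFinset.1 (hUf.toFinset.equivFin.symm i).2
    · intro hA
      refine ⟨hUf.toFinset.equivFin ⟨A, hUf.mem_toFinset.2 hA⟩, by simp⟩
  have heo : ∀ i, IsOpen (e i) := fun i => hUo _ (he ▸ mem_range_self i)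
  have hcov : ∀ x : M, x ∈ ⋃ i, e i := by
    intro x
    have : x ∈ ⋃₀ U := by rw [hUc]; trivial
    obtain ⟨A, hA, hx⟩ := this
    rw [← he] at hA
    obtain ⟨i, rfl⟩ := hA
    exact mem_iUnion.2 ⟨i, hx⟩
  obtain ⟨O₁, a1, a2, a3, a4⟩ := hc M _ q e h1 heo (fun x _ => hcov x)
  obtain ⟨O₂, b1, b2, b3, b4⟩ := hc M _ q e h2 heo (fun x _ => hcov x)
  refine ⟨range O₁ ∪ range O₂, (finite_range _).union (finite_range _), ?_, ?_, ?_, ?_⟩
  · rintro B (⟨i, rfl⟩ | ⟨i, rfl⟩)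
    · exact a1 i
    · exact b1 i
  · apply eq_univ_of_forall
    intro x
    by_cases hx : x ∈ ⋃ n, ⋃ j, D n j
    · have := b3 hx
      rw [mem_iUnion] at this
      obtain ⟨i, hi⟩ := this
      exact ⟨O₂ i, Or.inr ⟨i, rfl⟩, hi⟩
    · have := a3 hx
      rw [mem_iUnion] at this
      obtain ⟨i, hi⟩ := this
      exact ⟨O₁ i, Or.inl ⟨i, rfl⟩, hi⟩
  · rintro B (⟨i, rfl⟩ | ⟨i, rfl⟩)
    · exact ⟨e i, he ▸ mem_range_self i, a2 i⟩
    · exact ⟨e i, he ▸ mem_range_self i, b2 i⟩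
  · intro x
    have hone : ∀ O : Fin q → Set M, (∀ i j, i ≠ j → Disjoint (O i) (O j)) →
        {B ∈ range O | x ∈ B}.ncard ≤ 1 := by
      intro O hO
      rw [ncard_le_one_iff ((finite_range O).subset (sep_subset _ _))]
      rintro _ _ ⟨⟨i, rfl⟩, hi⟩ ⟨⟨j, rfl⟩, hj⟩
      by_contra hne
      have hij : i ≠ j := fun h => hne (by rw [h])
      exact Set.disjoint_left.1 (hO i j hij) hi hj
    have hsub : {B ∈ range O₁ ∪ range O₂ | x ∈ B} ⊆
        {B ∈ range O₁ | x ∈ B} ∪ {B ∈ range O₂ | x ∈ B} := by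
      rintro B ⟨hB | hB, hx⟩
      · exact Or.inl ⟨hB, hx⟩
      · exact Or.inr ⟨hB, hx⟩
    calc {B ∈ range O₁ ∪ range O₂ | x ∈ B}.ncard
        ≤ ({B ∈ range O₁ | x ∈ B} ∪ {B ∈ range O₂ | x ∈ B}).ncard :=
          ncard_le_ncard hsub (((finite_range O₁).subset (sep_subset _ _)).union
            ((finite_range O₂).subset (sep_subset _ _)))
      _ ≤ {B ∈ range O₁ | x ∈ B}.ncard + {B ∈ range O₂ | x ∈ B}.ncard := ncard_union_le _ _
      _ ≤ 1 + 1 := add_le_add (hone O₁ a4) (hone O₂ b4)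
      _ = 2 := rfl

end Pool.Agent.H55.Cos
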